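import Pool.Agent.Q303.RadoB

/-! MP_591151_lc: a Borel graph with finite distinguishing number and uncountable Borel
distinguishing number. -/

open Set Topology Filter MeasureTheory

namespace Pool.Agent.Results.MP_591151_lc.BorelRado

open Pool.Agent.Q303.Rado

/-- no nontrivial automorphism (Borel or not) of the graph preserves the map `c` -/
def Distinguishing {X I : Type*} (G : X → X → Prop) (c : X → I) : Prop :=
  ∀ φ : Equiv.Perm X, (∀ x y, G x y ↔ G (φ x) (φ y)) → φ ≠ 1 → ∃ x, c x ≠ c (φ x)

/-- There is a Borel graph which has a distinguishing colouring with four colours, but no Borel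
distinguishing colouring by a countable standard Borel space. -/
theorem result : ∃ (X : Type) (_ : MeasurableSpace X) (_ : StandardBorelSpace X)
    (G : X → X → Prop), (∀ x y, G x y → G y x) ∧ (∀ x, ¬ G x x) ∧
      MeasurableSet {p : X × X | G p.1 p.2} ∧
      (∃ c : X → Fin 4, Distinguishing G c) ∧
      ∀ (I : Type) [MeasurableSpace I] [StandardBorelSpace I] (c : X → I),
        Measurable c → Distinguishing G c → ¬ Countable I := by
  refine ⟨X0, inferInstance, X0_meas.standardBorel, G, fun x y h => G_symm h, G_irr, G_meas,
    ?_, ?_⟩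
  · obtain ⟨c, hc⟩ := dist4
    refine ⟨c, fun φ hφ hne => ?_⟩
    by_contra hcon
    push Not at hcon
    exact hne (Equiv.ext fun x => hc φ hφ (fun x => (hcon x).symm) x)
  · intro I _ _ c hc hdist hI
    obtain ⟨φ, h1, h2, x, hx⟩ := no_countable c hc
    obtain ⟨y, hy⟩ := hdist φ h1 (fun h => hx (by rw [h]; rfl))
    exact hy (h2 y).symm

end Pool.Agent.Results.MP_591151_lc.BorelRado
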